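import Mathlib
import Pool.Agent.Helper888.PGLTwo

set_option autoImplicit false
set_option linter.unusedSimpArgs false

namespace Pool.Agent.Results.MP_8ecd4b_al.NoPGL2

open Matrix
open scoped MatrixGroups

/-- The 22 relators of `K`, in the generators `A, B, C, D, E, F = 0, 1, 2, 3, 4, 5`. -/
def rels : Set (FreeGroup (Fin 6)) :=
  {FreeGroup.of (0 : Fin 6) ^ 3,
    FreeGroup.of (1 : Fin 6) ^ 3,
    FreeGroup.of (2 : Fin 6) ^ 2,
    FreeGroup.of (3 : Fin 6) ^ 2,
    FreeGroup.of (4 : Fin 6) ^ 2,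
    FreeGroup.of (5 : Fin 6) ^ 2,
    (FreeGroup.of (0 : Fin 6) * FreeGroup.of (2 : Fin 6)) ^ 3,
    (FreeGroup.of (0 : Fin 6) * FreeGroup.of (3 : Fin 6)) ^ 3,
    (FreeGroup.of (0 : Fin 6) * FreeGroup.of (4 : Fin 6)) ^ 3,
    (FreeGroup.of (0 : Fin 6) * FreeGroup.of (5 : Fin 6)) ^ 3,
    (FreeGroup.of (1 : Fin 6) * FreeGroup.of (2 : Fin 6)) ^ 3,
    (FreeGroup.of (1 : Fin 6) * FreeGroup.of (3 : Fin 6)) ^ 3,
    (FreeGroup.of (1 : Fin 6) * FreeGroup.of (4 : Fin 6)) ^ 3,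
    (FreeGroup.of (1 : Fin 6) * FreeGroup.of (5 : Fin 6)) ^ 3,
    (FreeGroup.of (0 : Fin 6) * FreeGroup.of (1 : Fin 6) * (FreeGroup.of (0 : Fin 6))⁻¹
      * FreeGroup.of (2 : Fin 6)) ^ 2,
    (FreeGroup.of (0 : Fin 6) * FreeGroup.of (1 : Fin 6) * (FreeGroup.of (0 : Fin 6))⁻¹
      * FreeGroup.of (3 : Fin 6)) ^ 2,
    ((FreeGroup.of (0 : Fin 6))⁻¹ * FreeGroup.of (1 : Fin 6) * FreeGroup.of (0 : Fin 6)
      * FreeGroup.of (4 : Fin 6)) ^ 2,
    ((FreeGroup.of (0 : Fin 6))⁻¹ * FreeGroup.of (1 : Fin 6) * FreeGroup.of (0 : Fin 6)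
      * FreeGroup.of (5 : Fin 6)) ^ 2,
    (FreeGroup.of (1 : Fin 6) * FreeGroup.of (0 : Fin 6) * (FreeGroup.of (1 : Fin 6))⁻¹
      * FreeGroup.of (2 : Fin 6)) ^ 2,
    ((FreeGroup.of (1 : Fin 6))⁻¹ * FreeGroup.of (0 : Fin 6) * FreeGroup.of (1 : Fin 6)
      * FreeGroup.of (3 : Fin 6)) ^ 2,
    (FreeGroup.of (1 : Fin 6) * FreeGroup.of (0 : Fin 6) * (FreeGroup.of (1 : Fin 6))⁻¹
      * FreeGroup.of (4 : Fin 6)) ^ 2,
    ((FreeGroup.of (1 : Fin 6))⁻¹ * FreeGroup.of (0 : Fin 6) * FreeGroup.of (1 : Fin 6)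
      * FreeGroup.of (5 : Fin 6)) ^ 2}

/-- The group `K`. -/
abbrev K : Type := PresentedGroup rels

theorem rel_one {G : Type*} [Group G] (φ : K →* G) {r : FreeGroup (Fin 6)} (hr : r ∈ rels) :
    FreeGroup.lift (fun i => φ (PresentedGroup.of i)) r = 1 := by
  have h1 : (PresentedGroup.mk rels) r = 1 := PresentedGroup.one_of_mem hr
  have h2 : FreeGroup.lift (fun i => φ (PresentedGroup.of i)) = φ.comp (PresentedGroup.mk rels) := by
    ext i
    simp [PresentedGroup.of]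
  rw [h2, MonoidHom.comp_apply, h1, map_one]

theorem trivial_of (G : Type*) [Group G] (φ : K →* G)
    (h : ∀ i : Fin 6, φ (PresentedGroup.of i) = 1) : φ = 1 := by
  apply PresentedGroup.ext
  intro i
  rw [h i, MonoidHom.one_apply]

/-- The relations, read in a group `G` to which `K` maps. -/
theorem relations {G : Type*} [Group G] (φ : K →* G) (x : Fin 6 → G)
    (hx : ∀ i, φ (PresentedGroup.of i) = x i) :
    (x 0 ^ 3 = 1 ∧ x 1 ^ 3 = 1 ∧ x 2 ^ 2 = 1 ∧ x 3 ^ 2 = 1 ∧ x 4 ^ 2 = 1 ∧ x 5 ^ 2 = 1) ∧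
    ((x 0 * x 2) ^ 3 = 1 ∧ (x 0 * x 3) ^ 3 = 1 ∧ (x 0 * x 4) ^ 3 = 1 ∧ (x 0 * x 5) ^ 3 = 1) ∧
    ((x 1 * x 2) ^ 3 = 1 ∧ (x 1 * x 3) ^ 3 = 1 ∧ (x 1 * x 4) ^ 3 = 1 ∧ (x 1 * x 5) ^ 3 = 1) ∧
    ((x 0 * x 1 * (x 0)⁻¹ * x 2) ^ 2 = 1 ∧ (x 0 * x 1 * (x 0)⁻¹ * x 3) ^ 2 = 1 ∧
      (x 1 * x 0 * (x 1)⁻¹ * x 2) ^ 2 = 1 ∧ ((x 1)⁻¹ * x 0 * x 1 * x 3) ^ 2 = 1) := by
  have hx' : (fun i => φ (PresentedGroup.of i)) = x := funext hx
  have key : ∀ r : FreeGroup (Fin 6), r ∈ rels → FreeGroup.lift x r = 1 := by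
    intro r hr
    rw [← hx']
    exact rel_one φ hr
  refine ⟨⟨?_, ?_, ?_, ?_, ?_, ?_⟩, ⟨?_, ?_, ?_, ?_⟩, ⟨?_, ?_, ?_, ?_⟩, ⟨?_, ?_, ?_, ?_⟩⟩
  · have h := key (FreeGroup.of (0 : Fin 6) ^ 3)
      (Or.inl rfl)
    simp only [map_pow, map_mul, map_inv, FreeGroup.lift_apply_of] at h
    exact h
  · have h := key (FreeGroup.of (1 : Fin 6) ^ 3)
      (Or.inr (Or.inl rfl))
    simp only [map_pow, map_mul, map_inv, FreeGroup.lift_apply_of] at h
    exact h
  · have h := key (FreeGroup.of (2 : Fin 6) ^ 2)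
      (Or.inr (Or.inr (Or.inl rfl)))
    simp only [map_pow, map_mul, map_inv, FreeGroup.lift_apply_of] at h
    exact h
  · have h := key (FreeGroup.of (3 : Fin 6) ^ 2)
      (Or.inr (Or.inr (Or.inr (Or.inl rfl))))
    simp only [map_pow, map_mul, map_inv, FreeGroup.lift_apply_of] at h
    exact h
  · have h := key (FreeGroup.of (4 : Fin 6) ^ 2)
      (Or.inr (Or.inr (Or.inr (Or.inr (Or.inl rfl)))))
    simp only [map_pow, map_mul, map_inv, FreeGroup.lift_apply_of] at h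
    exact h
  · have h := key (FreeGroup.of (5 : Fin 6) ^ 2)
      (Or.inr (Or.inr (Or.inr (Or.inr (Or.inr (Or.inl rfl))))))
    simp only [map_pow, map_mul, map_inv, FreeGroup.lift_apply_of] at h
    exact h
  · have h := key ((FreeGroup.of (0 : Fin 6) * FreeGroup.of (2 : Fin 6)) ^ 3)
      (Or.inr (Or.inr (Or.inr (Or.inr (Or.inr (Or.inr (Or.inl rfl)))))))
    simp only [map_pow, map_mul, map_inv, FreeGroup.lift_apply_of] at h
    exact h
  · have h := key ((FreeGroup.of (0 : Fin 6) * FreeGroup.of (3 : Fin 6)) ^ 3)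
      (Or.inr (Or.inr (Or.inr (Or.inr (Or.inr (Or.inr (Or.inr (Or.inl rfl))))))))
    simp only [map_pow, map_mul, map_inv, FreeGroup.lift_apply_of] at h
    exact h
  · have h := key ((FreeGroup.of (0 : Fin 6) * FreeGroup.of (4 : Fin 6)) ^ 3)
      (Or.inr (Or.inr (Or.inr (Or.inr (Or.inr (Or.inr (Or.inr (Or.inr (Or.inl rfl)))))))))
    simp only [map_pow, map_mul, map_inv, FreeGroup.lift_apply_of] at h
    exact h
  · have h := key ((FreeGroup.of (0 : Fin 6) * FreeGroup.of (5 : Fin 6)) ^ 3)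
      (Or.inr (Or.inr (Or.inr (Or.inr (Or.inr (Or.inr (Or.inr (Or.inr (Or.inr (Or.inl
        rfl))))))))))
    simp only [map_pow, map_mul, map_inv, FreeGroup.lift_apply_of] at h
    exact h
  · have h := key ((FreeGroup.of (1 : Fin 6) * FreeGroup.of (2 : Fin 6)) ^ 3)
      (Or.inr (Or.inr (Or.inr (Or.inr (Or.inr (Or.inr (Or.inr (Or.inr (Or.inr (Or.inr (Or.inl
        rfl)))))))))))
    simp only [map_pow, map_mul, map_inv, FreeGroup.lift_apply_of] at h
    exact h
  · have h := key ((FreeGroup.of (1 : Fin 6) * FreeGroup.of (3 : Fin 6)) ^ 3)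
      (Or.inr (Or.inr (Or.inr (Or.inr (Or.inr (Or.inr (Or.inr (Or.inr (Or.inr (Or.inr (Or.inr
        (Or.inl rfl))))))))))))
    simp only [map_pow, map_mul, map_inv, FreeGroup.lift_apply_of] at h
    exact h
  · have h := key ((FreeGroup.of (1 : Fin 6) * FreeGroup.of (4 : Fin 6)) ^ 3)
      (Or.inr (Or.inr (Or.inr (Or.inr (Or.inr (Or.inr (Or.inr (Or.inr (Or.inr (Or.inr (Or.inr
        (Or.inr (Or.inl rfl)))))))))))))
    simp only [map_pow, map_mul, map_inv, FreeGroup.lift_apply_of] at h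
    exact h
  · have h := key ((FreeGroup.of (1 : Fin 6) * FreeGroup.of (5 : Fin 6)) ^ 3)
      (Or.inr (Or.inr (Or.inr (Or.inr (Or.inr (Or.inr (Or.inr (Or.inr (Or.inr (Or.inr (Or.inr
        (Or.inr (Or.inr (Or.inl rfl))))))))))))))
    simp only [map_pow, map_mul, map_inv, FreeGroup.lift_apply_of] at h
    exact h
  · have h := key ((FreeGroup.of (0 : Fin 6) * FreeGroup.of (1 : Fin 6)
      * (FreeGroup.of (0 : Fin 6))⁻¹ * FreeGroup.of (2 : Fin 6)) ^ 2)
      (Or.inr (Or.inr (Or.inr (Or.inr (Or.inr (Or.inr (Or.inr (Or.inr (Or.inr (Or.inr (Or.inr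
        (Or.inr (Or.inr (Or.inr (Or.inl rfl)))))))))))))))
    simp only [map_pow, map_mul, map_inv, FreeGroup.lift_apply_of] at h
    exact h
  · have h := key ((FreeGroup.of (0 : Fin 6) * FreeGroup.of (1 : Fin 6)
      * (FreeGroup.of (0 : Fin 6))⁻¹ * FreeGroup.of (3 : Fin 6)) ^ 2)
      (Or.inr (Or.inr (Or.inr (Or.inr (Or.inr (Or.inr (Or.inr (Or.inr (Or.inr (Or.inr (Or.inr
        (Or.inr (Or.inr (Or.inr (Or.inr (Or.inl rfl))))))))))))))))
    simp only [map_pow, map_mul, map_inv, FreeGroup.lift_apply_of] at h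
    exact h
  · have h := key ((FreeGroup.of (1 : Fin 6) * FreeGroup.of (0 : Fin 6)
      * (FreeGroup.of (1 : Fin 6))⁻¹ * FreeGroup.of (2 : Fin 6)) ^ 2)
      (Or.inr (Or.inr (Or.inr (Or.inr (Or.inr (Or.inr (Or.inr (Or.inr (Or.inr (Or.inr (Or.inr
        (Or.inr (Or.inr (Or.inr (Or.inr (Or.inr (Or.inr (Or.inr (Or.inl rfl)))))))))))))))))))
    simp only [map_pow, map_mul, map_inv, FreeGroup.lift_apply_of] at h
    exact h
  · have h := key (((FreeGroup.of (1 : Fin 6))⁻¹ * FreeGroup.of (0 : Fin 6)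
      * FreeGroup.of (1 : Fin 6) * FreeGroup.of (3 : Fin 6)) ^ 2)
      (Or.inr (Or.inr (Or.inr (Or.inr (Or.inr (Or.inr (Or.inr (Or.inr (Or.inr (Or.inr (Or.inr
        (Or.inr (Or.inr (Or.inr (Or.inr (Or.inr (Or.inr (Or.inr (Or.inr (Or.inl
        rfl))))))))))))))))))))
    simp only [map_pow, map_mul, map_inv, FreeGroup.lift_apply_of] at h
    exact h

open Pool.Agent.Helper888.PGLTwo in
/-- A homomorphism killing `A` is trivial. -/
theorem trivial_of_A (G : Type*) [Group G] (φ : K →* G)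
    (h : φ (PresentedGroup.of 0) = 1) : φ = 1 := by
  obtain ⟨⟨h0, h1, h2, h3, h4, h5⟩, ⟨p2, p3, p4, p5⟩, ⟨q2, q3, q4, q5⟩, ⟨r1, r2, r3, r4⟩⟩ :=
    relations φ (fun i => φ (PresentedGroup.of i)) (fun i => rfl)
  simp only [h, one_mul, inv_one, mul_one] at p2 p3 p4 p5 r1
  apply trivial_of
  have e1 : φ (PresentedGroup.of 1) = 1 := by
    have h6 := one_of_sq_cube r1 q2
    have h7 : φ (PresentedGroup.of 1) = (φ (PresentedGroup.of 2))⁻¹ := eq_inv_of_mul_eq_one_left h6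
    refine one_of_sq_cube ?_ h1
    rw [h7, inv_pow, h2, inv_one]
  intro i
  fin_cases i
  · exact h
  · exact e1
  · exact one_of_sq_cube h2 p2
  · exact one_of_sq_cube h3 p3
  · exact one_of_sq_cube h4 p4
  · exact one_of_sq_cube h5 p5

theorem pgl (k : Type*) [Field k] (φ : K →* PGL(2, k)) : φ = 1 := by
  obtain ⟨⟨h0, h1, h2, h3, h4, h5⟩, ⟨p2, p3, p4, p5⟩, ⟨q2, q3, q4, q5⟩, ⟨r1, r2, r3, r4⟩⟩ :=
    relations φ (fun i => φ (PresentedGroup.of i)) (fun i => rfl)
  exact trivial_of_A _ φ (Pool.Agent.Helper888.PGLTwo.A_eq_one _ _ _ _ h0 h1 h2 h3 p2 p3 q2 q3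
    r1 r2 r3 r4)

theorem psl (k : Type*) [Field k] (φ : K →* PSL(2, k)) : φ = 1 := by
  have h := pgl k ((ProjectiveSpecialLinearGroup.toPGL (n := Fin 2) (R := k)).comp φ)
  refine MonoidHom.ext fun g => ProjectiveSpecialLinearGroup.toPGL_injective ?_
  have h2 := DFunLike.congr_fun h g
  rw [MonoidHom.one_apply, map_one]
  exact h2

/-- Homomorphisms from `K` to commutative groups are trivial. -/
theorem comm (G : Type*) [Group G] (φ : K →* G) (hc : ∀ g h : K, φ g * φ h = φ h * φ g) :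
    φ = 1 := by
  obtain ⟨⟨h0, h1, h2, h3, h4, h5⟩, ⟨p2, p3, p4, p5⟩, ⟨q2, q3, q4, q5⟩, ⟨r1, r2, r3, r4⟩⟩ :=
    relations φ (fun i => φ (PresentedGroup.of i)) (fun i => rfl)
  apply trivial_of_A
  set a := φ (PresentedGroup.of 0) with ha
  set b := φ (PresentedGroup.of 1) with hb
  set c := φ (PresentedGroup.of 2) with hcc
  have hab : b * a = a * b := hc _ _
  have hac : a * c = c * a := hc _ _
  have e : (a * c) ^ 2 = 1 := by
    calc (a * c) ^ 2 = (b * a * b⁻¹ * c) ^ 2 := by rw [hab]; simp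
      _ = 1 := r3
  have e2 : a * c = 1 := Pool.Agent.Helper888.PGLTwo.one_of_sq_cube e p2
  have h7 : a = c⁻¹ := eq_inv_of_mul_eq_one_left e2
  refine Pool.Agent.Helper888.PGLTwo.one_of_sq_cube ?_ h0
  rw [h7, inv_pow, h2, inv_one]

theorem gl_field (k : Type*) [Field k] (φ : K →* GL (Fin 2) k) : φ = 1 := by
  have h := pgl k ((ProjGenLinGroup.mk (n := Fin 2) (R := k)).comp φ)
  apply comm
  intro g g'
  have hg : φ g ∈ Subgroup.center (GL (Fin 2) k) := by
    rw [← ProjGenLinGroup.mk_eq_one]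
    exact DFunLike.congr_fun h g
  exact (Subgroup.mem_center_iff.mp hg (φ g')).symm

/-- reduction of a `GL₂`-valued homomorphism along a ring homomorphism -/
theorem map_eq_one_iff {R S : Type*} [CommRing R] [CommRing S] (f : R →+* S)
    (φ : K →* GL (Fin 2) R) :
    (GeneralLinearGroup.map f).comp φ = 1 ↔
      ∀ g i j, (φ g).val i j - (1 : Matrix (Fin 2) (Fin 2) R) i j ∈ RingHom.ker f := by
  have h1 : ∀ i j, f ((1 : Matrix (Fin 2) (Fin 2) R) i j) = (1 : Matrix (Fin 2) (Fin 2) S) i j := by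
    intro i j
    fin_cases i <;> fin_cases j <;> simp
  constructor
  · intro h g i j
    have h2 := DFunLike.congr_fun h g
    have h3 : ((GeneralLinearGroup.map f) (φ g)).val i j = (1 : Matrix (Fin 2) (Fin 2) S) i j := by
      rw [MonoidHom.comp_apply] at h2
      rw [h2]
      rfl
    rw [RingHom.mem_ker, map_sub, h1, ← h3]
    exact sub_self _
  · intro h
    refine MonoidHom.ext fun g => Units.ext ?_
    ext i j
    have h2 := h g i j
    rw [RingHom.mem_ker, map_sub, h1, sub_eq_zero] at h2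
    exact h2

theorem gl_ring (R : Type*) [CommRing R] (φ : K →* GL (Fin 2) R) : φ = 1 := by
  -- entries of `φ g - 1` are nilpotent
  have hnil : ∀ g i j, (φ g).val i j - (1 : Matrix (Fin 2) (Fin 2) R) i j ∈ nilradical R := by
    intro g i j
    rw [nilradical_eq_sInf, Ideal.mem_sInf]
    intro p hp
    have hp' : p.IsPrime := hp
    have h1 := (map_eq_one_iff ((algebraMap (R ⧸ p) (FractionRing (R ⧸ p))).comp
      (Ideal.Quotient.mk p)) φ).mp (gl_field _ _) g i j
    rw [RingHom.mem_ker, RingHom.comp_apply] at h1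
    have h2 := (IsFractionRing.injective (R ⧸ p) (FractionRing (R ⧸ p)))
      (h1.trans (map_zero _).symm)
    exact Ideal.Quotient.eq_zero_iff_mem.mp h2
  -- a nilpotent ideal controlling the generators
  obtain ⟨I, hI⟩ : ∃ I : Ideal R, I = Ideal.span (Set.range fun t : Fin 6 × Fin 2 × Fin 2 =>
    (φ (PresentedGroup.of t.1)).val t.2.1 t.2.2 - (1 : Matrix (Fin 2) (Fin 2) R) t.2.1 t.2.2) :=
      ⟨_, rfl⟩
  have hfg : I.FG := by
    rw [hI]
    exact Submodule.fg_span (Set.finite_range _)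
  have hle : I ≤ nilradical R := by
    rw [hI, Ideal.span_le]
    rintro _ ⟨t, rfl⟩
    exact hnil _ _ _
  obtain ⟨n, hn⟩ := (Ideal.FG.isNilpotent_iff_le_nilradical hfg).mpr hle
  have key : ∀ m : ℕ, ∀ g i j,
      (φ g).val i j - (1 : Matrix (Fin 2) (Fin 2) R) i j ∈ I ^ (m + 1) := by
    intro m
    induction m with
    | zero =>
      intro g i j
      rw [zero_add, pow_one]
      have h1 : (GeneralLinearGroup.map (Ideal.Quotient.mk I)).comp φ = 1 := by
        apply trivial_of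
        intro n
        apply Units.ext
        ext i j
        have h2 : (φ (PresentedGroup.of n)).val i j - (1 : Matrix (Fin 2) (Fin 2) R) i j ∈ I := by
          rw [hI]
          exact Ideal.subset_span ⟨(n, i, j), rfl⟩
        rw [← Ideal.Quotient.eq_zero_iff_mem, map_sub, sub_eq_zero] at h2
        refine Eq.trans h2 ?_
        fin_cases i <;> fin_cases j <;> simp
      have h3 := (map_eq_one_iff _ φ).mp h1 g i j
      rwa [Ideal.mk_ker] at h3
    | succ m ih =>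
      intro g i j
      have h1 : (GeneralLinearGroup.map (Ideal.Quotient.mk (I ^ (m + 1 + 1)))).comp φ = 1 := by
        apply comm
        intro g h
        apply Units.ext
        ext i j
        have h2 : ∀ x y : K, ∀ i j, ((φ x).val * (φ y).val) i j
            - ((φ x).val i j + (φ y).val i j - (1 : Matrix (Fin 2) (Fin 2) R) i j)
              ∈ I ^ (m + 1 + 1) := by
          intro x y i j
          have e : (φ x).val * (φ y).val - ((φ x).val + (φ y).val - 1)
              = ((φ x).val - 1) * ((φ y).val - 1) := by noncomm_ring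
          have e2 := congrFun (congrFun e i) j
          simp only [Matrix.sub_apply, Matrix.add_apply] at e2
          rw [e2, Matrix.mul_apply]
          refine Ideal.sum_mem _ fun l _ => ?_
          have e3 : I ^ (m + 1 + (m + 1)) ≤ I ^ (m + 1 + 1) := Ideal.pow_le_pow_right (by omega)
          apply e3
          rw [pow_add]
          exact Ideal.mul_mem_mul (ih x i l) (ih y l j)
        have h3 : ((φ g).val * (φ h).val) i j - ((φ h).val * (φ g).val) i j ∈ I ^ (m + 1 + 1) := by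
          have := Ideal.sub_mem _ (h2 g h i j) (h2 h g i j)
          convert this using 1
          ring
        rw [← Ideal.Quotient.eq_zero_iff_mem, map_sub, sub_eq_zero] at h3
        have h4 : ∀ x y : K, ((((GeneralLinearGroup.map (Ideal.Quotient.mk (I ^ (m + 1 + 1)))).comp φ) x
            * ((GeneralLinearGroup.map (Ideal.Quotient.mk (I ^ (m + 1 + 1)))).comp φ) y)).val i j
            = Ideal.Quotient.mk (I ^ (m + 1 + 1)) (((φ x).val * (φ y).val) i j) := by
          intro x y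
          rw [← map_mul, MonoidHom.comp_apply, map_mul φ]
          rfl
        rw [h4, h4, h3]
      have h3 := (map_eq_one_iff _ φ).mp h1 g i j
      rwa [Ideal.mk_ker] at h3
  refine MonoidHom.ext fun g => Units.ext ?_
  ext i j
  have h1 := key n g i j
  rw [pow_succ, hn] at h1
  simp only [Ideal.zero_eq_bot, Ideal.bot_mul, Ideal.mem_bot] at h1
  exact sub_eq_zero.mp h1

theorem sl_ring (R : Type*) [CommRing R] (φ : K →* SL(2, R)) : φ = 1 := by
  have h := gl_ring R ((SpecialLinearGroup.toGL (n := Fin 2) (R := R)).comp φ)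
  refine MonoidHom.ext fun g => Subtype.ext ?_
  have h2 := DFunLike.congr_fun h g
  exact congrArg Units.val h2

/-- `PSL(2, k)` is not trivial. -/
theorem psl_nontrivial (k : Type*) [Field k] : ∃ x : PSL(2, k), x ≠ 1 := by
  obtain ⟨g, hg⟩ : ∃ g : SL(2, k), g.val = !![1, 1; 0, 1] :=
    ⟨⟨!![1, 1; 0, 1], by simp [Matrix.det_fin_two_of]⟩, rfl⟩
  refine ⟨(g : PSL(2, k)), ?_⟩
  intro h
  have h2 : ProjGenLinGroup.mk (SpecialLinearGroup.toGL g) = 1 := by
    rw [← ProjectiveSpecialLinearGroup.toPGL_mk, h, map_one]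
  rw [ProjGenLinGroup.mk_eq_one, GeneralLinearGroup.mem_center_iff_val_mem_range_scalar] at h2
  obtain ⟨s, hs⟩ := h2
  have h3 := congrFun (congrFun (hs.trans hg) 0) 1
  simp at h3

universe u

/-- Every homomorphism from `K` to `PGL(2, k)` or `PSL(2, k)`, `k` any field, is trivial, so
no quotient of `K` is isomorphic to `PSL(2, k)` and no non-trivial quotient of `K` embeds in
`PGL(2, k)`; and every homomorphism from `K` to `GL(2, R)` or `SL(2, R)`, `R` any commutative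
ring, is trivial. -/
theorem result :
    (∀ (k : Type u) [Field k] (φ : K →* PGL(2, k)) (g : K), φ g = 1) ∧
    (∀ (k : Type u) [Field k] (φ : K →* PSL(2, k)) (g : K), φ g = 1) ∧
    (∀ (R : Type u) [CommRing R] (φ : K →* GL (Fin 2) R) (g : K), φ g = 1) ∧
    (∀ (R : Type u) [CommRing R] (φ : K →* SL(2, R)) (g : K), φ g = 1) ∧
    (∀ (k : Type u) [Field k] (N : Subgroup K) [N.Normal], IsEmpty (K ⧸ N ≃* PSL(2, k))) ∧
    (∀ (k : Type u) [Field k] (N : Subgroup K) [N.Normal], N ≠ ⊤ →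
      ¬ ∃ f : K ⧸ N →* PGL(2, k), Function.Injective f) := by
  refine ⟨?_, ?_, ?_, ?_, ?_, ?_⟩
  · intro k _ φ g
    rw [pgl k φ, MonoidHom.one_apply]
  · intro k _ φ g
    rw [psl k φ, MonoidHom.one_apply]
  · intro R _ φ g
    rw [gl_ring R φ, MonoidHom.one_apply]
  · intro R _ φ g
    rw [sl_ring R φ, MonoidHom.one_apply]
  · intro k _ N _
    refine ⟨fun e => ?_⟩
    obtain ⟨x, hx⟩ := psl_nontrivial k
    obtain ⟨g, hg⟩ := QuotientGroup.mk'_surjective N (e.symm x)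
    apply hx
    have h1 : (e.toMonoidHom.comp (QuotientGroup.mk' N)) g = 1 := by
      rw [psl k (e.toMonoidHom.comp (QuotientGroup.mk' N)), MonoidHom.one_apply]
    rw [MonoidHom.comp_apply, hg] at h1
    exact (e.apply_symm_apply x).symm.trans h1
  · rintro k _ N _ hN ⟨f, hf⟩
    apply hN
    rw [eq_top_iff]
    intro g _
    have h1 : (f.comp (QuotientGroup.mk' N)) g = 1 := by
      rw [pgl k (f.comp (QuotientGroup.mk' N)), MonoidHom.one_apply]
    have h2 : QuotientGroup.mk' N g = 1 := hf (h1.trans (map_one f).symm)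
    rwa [← MonoidHom.mem_ker, QuotientGroup.ker_mk'] at h2

end Pool.Agent.Results.MP_8ecd4b_al.NoPGL2
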